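import Mathlib

set_option autoImplicit false

namespace Pool.Agent.Results.MP_d9ed39_co.JointsBound

open Finset

/-- `x` is an `n`-dimensional joint of the family `L` of lines of `M`. -/
def IsJoint {α : Type} (M : Matroid α) (L : Finset (Set α)) (n : ℕ) (x : α) : Prop :=
  x ∈ M.E ∧ ∃ l : Fin n → Set α, (∀ i, l i ∈ L ∧ x ∈ l i) ∧ ((n + 1 : ℕ) : ℕ∞) ≤ M.eRk (⋃ i, l i)

theorem line_sub {α : Type} {M : Matroid α} (hs : ∀ e ∈ M.E, ∀ f ∈ M.E, M.Indep {e, f})
    {l : Set α} (hl : M.IsFlat l ∧ M.eRk l = 2) {y z : α} (hy : y ∈ l) (hz : z ∈ l) (h : y ≠ z) :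
    M.closure {y, z} = l := by
  have hI := hs y (hl.1.subset_ground hy) z (hl.1.subset_ground hz)
  have hB := hI.isBasis_of_eRk_ge (Set.toFinite _) (Set.pair_subset hy hz)
    (by rw [hl.2, hI.eRk_eq_encard, Set.encard_pair h]) hl.1.subset_ground
  rw [hB.closure_eq_closure, hl.1.closure]

/-- In a finite simple matroid, `L` lines have at most `(2 L^5)^(1/3)` joints of dimension
`n ≥ 4`. -/
theorem result (n : ℕ) (hn : 4 ≤ n) (α : Type) (M : Matroid α) (hfin : M.E.Finite)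
    (hs : ∀ e ∈ M.E, ∀ f ∈ M.E, M.Indep {e, f}) (L : Finset (Set α))
    (hL : ∀ l ∈ L, M.IsFlat l ∧ M.eRk l = 2) :
    {x | IsJoint M L n x}.ncard ^ 3 ≤ 2 * L.card ^ 5 := by
  classical
  have hPf : {x | IsJoint M L n x}.Finite := hfin.subset fun x hx => hx.1
  rw [Set.ncard_eq_toFinset_card _ hPf]
  set P := hPf.toFinset
  have hP : ∀ x ∈ P, IsJoint M L n x := fun x hx => by simpa [P] using hx
  have out : ∀ F : Set α, M.eRk F ≤ 4 → ∀ x ∈ P, ∃ l ∈ L, x ∈ l ∧ ¬ l ⊆ F := by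
    intro F hF x hx
    obtain ⟨-, l, hl, hr⟩ := hP x hx
    by_contra hc
    push Not at hc
    have h1 := hr.trans ((M.eRk_mono (Set.iUnion_subset fun i => hc _ (hl i).1 (hl i).2)).trans hF)
    have h2 : n + 1 ≤ 4 := by exact_mod_cast h1
    omega
  have few : ∀ F : Set α, M.eRk F ≤ 4 → (P.filter fun x => x ∈ M.closure F).card ≤ L.card := by
    intro F hF
    choose! w hw1 hw2 hw3 using out (M.closure F) (by rwa [M.eRk_closure_eq])
    refine card_le_card_of_injOn w (fun x hx => hw1 x (mem_filter.1 hx).1) fun x hx y hy h => ?_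
    obtain ⟨hx1, hx2⟩ := mem_filter.1 hx
    obtain ⟨hy1, hy2⟩ := mem_filter.1 hy
    by_contra hxy
    apply hw3 x hx1
    rw [← line_sub hs (hL _ (hw1 x hx1)) (hw2 x hx1) (h ▸ hw2 y hy1) hxy]
    exact M.closure_subset_closure_of_subset_closure (Set.pair_subset hx2 hy2)
  choose! u hu1 hu2 hu3 using out ∅ (by simp)
  have hv : ∀ x ∈ P, ∃ l ∈ L, x ∈ l ∧ l ≠ u x := fun x hx => by
    obtain ⟨l, h1, h2, h3⟩ := out (u x) (by rw [(hL _ (hu1 x hx)).2]; norm_num) x hx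
    exact ⟨l, h1, h2, fun h => h3 h.subset⟩
  choose! v hv1 hv2 hv3 using hv
  have inj : ∀ y ∈ P, ∀ z ∈ P, u y = u z → v y = v z → y = z := by
    intro y hy z hz h1 h2
    by_contra h
    apply hv3 y hy
    rw [← line_sub hs (hL _ (hv1 y hy)) (hv2 y hy) (h2 ▸ hv2 z hz) h,
      line_sub hs (hL _ (hu1 y hy)) (hu2 y hy) (h1 ▸ hu2 z hz) h]
  set D : Set α → Finset α := fun m => P.filter fun x => u x = m with hD
  have hd : ∀ m, (D m).card ≤ L.card := fun m =>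
    card_le_card_of_injOn v (fun x hx => hv1 x (mem_filter.1 hx).1) fun y hy z hz h =>
      inj y (mem_filter.1 hy).1 z (mem_filter.1 hz).1
        ((mem_filter.1 hy).2.trans (mem_filter.1 hz).2.symm) h
  have h1 : P.card = ∑ m ∈ L, (D m).card := card_eq_sum_card_fiberwise fun x hx => hu1 x hx
  have h2 : (L.sigma fun m => D m ×ˢ (D m).offDiag).card ≤
      ((L ×ˢ L).sigma fun q => P.filter fun x => x ∈ M.closure (q.1 ∪ q.2)).card := by
    refine card_le_card_of_injOn (fun t => ⟨(v t.2.2.1, v t.2.2.2), t.2.1⟩) ?_ ?_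
    · rintro ⟨m, x, y, z⟩ ht
      simp only [coe_sigma, Set.mem_sigma_iff, mem_coe, mem_product, mem_offDiag, hD,
        mem_filter] at ht ⊢
      obtain ⟨hm, ⟨hx, hx'⟩, ⟨hy, hy'⟩, ⟨hz, hz'⟩, hyz⟩ := ht
      refine ⟨⟨hv1 y hy, hv1 z hz⟩, hx, ?_⟩
      have := hu2 x hx
      rw [hx', ← line_sub hs (hL m hm) (hy' ▸ hu2 y hy) (hz' ▸ hu2 z hz) hyz] at this
      exact M.closure_subset_closure
        (Set.pair_subset (Or.inl (hv2 y hy)) (Or.inr (hv2 z hz))) this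
    · rintro ⟨m, x, y, z⟩ ht ⟨m', x', y', z'⟩ ht' h
      simp only [coe_sigma, Set.mem_sigma_iff, mem_coe, mem_product, mem_offDiag, hD,
        mem_filter] at ht ht'
      simp only [Sigma.mk.injEq, Prod.mk.injEq, heq_eq_eq] at h
      obtain ⟨⟨e1, e2⟩, rfl⟩ := h
      obtain ⟨-, ⟨-, rfl⟩, ⟨hy, hy'⟩, ⟨hz, hz'⟩, -⟩ := ht
      obtain ⟨-, ⟨-, rfl⟩, ⟨gy, gy'⟩, ⟨gz, gz'⟩, -⟩ := ht'
      rw [inj y hy y' gy (hy'.trans gy'.symm) e1, inj z hz z' gz (hz'.trans gz'.symm) e2]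
  have h3 : ((L ×ˢ L).sigma fun q => P.filter fun x => x ∈ M.closure (q.1 ∪ q.2)).card ≤
      L.card ^ 3 := by
    rw [card_sigma]
    refine (sum_le_card_nsmul _ _ L.card fun q hq => few _ ?_).trans (by simp [pow_succ])
    refine (M.eRk_union_le_eRk_add_eRk _ _).trans ?_
    rw [(hL _ (mem_product.1 hq).1).2, (hL _ (mem_product.1 hq).2).2]
    norm_num
  have h4 : ∑ m ∈ L, (D m).card ^ 3 ≤
      ∑ m ∈ L, ((D m ×ˢ (D m).offDiag).card + L.card ^ 2) := by
    refine sum_le_sum fun m _ => ?_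
    rw [card_product, offDiag_card]
    have := hd m
    generalize (D m).card = d at this
    obtain ⟨e, he⟩ := Nat.exists_eq_add_of_le (Nat.le_mul_self d)
    rw [he, Nat.add_sub_cancel_left]
    nlinarith [Nat.mul_le_mul this this]
  rw [sum_add_distrib, ← card_sigma, sum_const, smul_eq_mul] at h4
  have h5 := pow_sum_le_card_mul_sum_pow (s := L) (f := fun m => (D m).card)
    (fun _ _ => Nat.zero_le _) 2
  rw [h1]
  refine h5.trans ?_
  simp only [Nat.cast_id]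
  calc L.card ^ 2 * ∑ m ∈ L, (D m).card ^ 3 ≤ L.card ^ 2 * (L.card ^ 3 + L.card * L.card ^ 2) :=
        Nat.mul_le_mul_left _ (by omega)
    _ = 2 * L.card ^ 5 := by ring

end Pool.Agent.Results.MP_d9ed39_co.JointsBound
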